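import Pool.Agent.MP_13e7a1_an.H82.Tools

/-!
The upper half of the convergence theorem.
-/

open scoped ContDiff Topology Matrix
open Set Metric MeasureTheory Filter

noncomputable section

namespace Pool.Agent.MP_13e7a1_an.H42

open H82

theorem cs_bd {D : Set E} (hD : IsCompact D) {h u v : E → ℝ} (hh : Continuous h)
    (hu : Continuous u) (hv : Continuous v) {C B : ℝ} (hC : 0 ≤ C)
    (hb : ∀ x ∈ D, |h x| ≤ C * (u x * v x)) (hB : ∫ x in D, v x ^ 2 ≤ B) :
    |∫ x in D, h x| ≤ C * (√(∫ x in D, u x ^ 2) * √B) := by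
  refine (abs_int_le hD hh (by fun_prop) hb).trans ?_
  rw [integral_const_mul]
  refine mul_le_mul_of_nonneg_left ((int_cs hD hu hv).trans ?_) hC
  exact mul_le_mul_of_nonneg_left (Real.sqrt_le_sqrt hB) (Real.sqrt_nonneg _)

/-- The masses against a fixed smooth weight form a Cauchy sequence. -/
theorem N_cauchy (hI : SIntA) (c : Ctx) {D : Set E} (hD : IsCompact D) {φ : E → ℝ}
    (hφ : ContDiff ℝ ∞ φ) (h0 : ∀ x, x ∉ D → φ x = 0) {a : ℕ → E → ℝ}
    (ha : ∀ j, ContDiff ℝ ∞ (a j)) (hc : Cau D a) : CauchySeq fun k => c.N D φ (a k) (a k) := by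
  obtain ⟨B, hB, hb⟩ := hc.bdd hD ha
  obtain ⟨C, hC, he⟩ := c.eden_bd hD hφ
  have hg : ∀ j, Continuous (grad (a j)) := fun j => continuous_grad (ha j)
  refine Metric.cauchySeq_iff.2 fun ε hε => ?_
  have hs : 0 ≤ √B := Real.sqrt_nonneg _
  set t : ℝ := ε / (2 * (C * √B) + 1) with ht
  have ht0 : 0 < t := by positivity
  obtain ⟨N, hN⟩ := hc (t ^ 2) (by positivity)
  refine ⟨N, fun j hj k hk => ?_⟩
  have hd : Continuous fun x => grad (a j) x - grad (a k) x := (hg j).sub (hg k)
  rw [Real.dist_eq, hI.ephi c D hD φ _ _ hφ (ha j) (ha j) h0,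
    hI.ephi c D hD φ _ _ hφ (ha k) (ha k) h0,
    ← int_sub hD (c.continuous_Eden hφ (hg j) (hg j)) (c.continuous_Eden hφ (hg k) (hg k))]
  have e1 : ∫ x in D, (c.o * Eden c.J φ (grad (a j) x) (grad (a j) x) x -
      c.o * Eden c.J φ (grad (a k) x) (grad (a k) x) x) =
      (∫ x in D, c.o * Eden c.J φ (grad (a j) x - grad (a k) x) (grad (a j) x) x) +
      ∫ x in D, c.o * Eden c.J φ (grad (a k) x) (grad (a j) x - grad (a k) x) x := by
    rw [← int_add hD (c.continuous_Eden hφ hd (hg j))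
      (c.continuous_Eden hφ (hg k) hd)]
    refine int_congr hD fun x _ => ?_
    rw [c.Eden_sub_left, c.Eden_sub_right]; ring
  have e2 : √(∫ x in D, ‖grad (a j) x - grad (a k) x‖ ^ 2) ≤ t :=
    Real.sqrt_le_iff.2 ⟨ht0.le, hN j hj k hk⟩
  have e3 := cs_bd hD (c.continuous_Eden hφ hd (hg j))
    hd.norm (hg j).norm hC (fun x hx => he x hx _ _) (hb j)
  have e4 := cs_bd hD (c.continuous_Eden hφ (hg k) hd)
    hd.norm (hg k).norm hC
    (fun x hx => (he x hx _ _).trans (le_of_eq (by ring))) (hb k)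
  have e5 : C * (√(∫ x in D, ‖grad (a j) x - grad (a k) x‖ ^ 2) * √B) ≤ C * (t * √B) :=
    mul_le_mul_of_nonneg_left (mul_le_mul_of_nonneg_right e2 hs) hC
  have e6 : t * (2 * (C * √B) + 1) = ε := by rw [ht]; field_simp
  rw [e1]
  refine (abs_add_le _ _).trans_lt ?_
  nlinarith

/-- The masses against nonnegative weights are almost nonnegative. -/
theorem N_lower (hA : SLinA) (hI : SIntB) (c : Ctx) (p : E) {R R₁ K : ℝ} (h1 : 0 < R₁)
    (h2 : R₁ < R) {a η : ℕ → E → ℝ} (ha : c.App (closedBall p R) a η K)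
    (hc : Cau (closedBall p R) a) (hs : Small (closedBall p R) η) :
    ∃ s : ℕ → ℝ, Tendsto s atTop (𝓝 0) ∧ ∀ (k : ℕ) (ψ : E → ℝ) (L : ℝ), Continuous ψ → 0 ≤ L →
      (∀ x ∈ closedBall p R, 0 ≤ ψ x ∧ ψ x ≤ L) → (∀ x, x ∉ ball p R₁ → ψ x = 0) →
      -(L * s k) ≤ c.N (closedBall p R) ψ (a k) (a k) := by
  have hD : IsCompact (closedBall p R) := isCompact_closedBall p R
  set D := closedBall p R with hDdef
  obtain ⟨B, hB, hb⟩ := hc.bdd hD ha.smooth
  obtain ⟨φ, hφ, hφ01, hφ1, hφ0⟩ := exists_cutoff p h1 h2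
  obtain ⟨Y, hY, hlap⟩ := hI.lap c
  obtain ⟨C1, hC1, b1⟩ := c.ws_bd hD c.continuous_Om
  obtain ⟨C2, hC2, b2⟩ := exists_bound hD (continuous_grad hφ)
  obtain ⟨C3, hC3, b3⟩ := exists_bound hD hY
  obtain ⟨C4, hC4, b4⟩ := exists_bound hD (c.continuous_w c.continuous_Om c.continuous_Om)
  have hg : ∀ j, Continuous (grad (a j)) := fun j => continuous_grad (ha.smooth j)
  have hη : ∀ j, Continuous (η j) := fun j => (ha.smooth' j).continuous
  have hgη : ∀ j, Continuous (grad (η j)) := fun j => continuous_grad (ha.smooth' j)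
  refine ⟨fun k => 2 * (C1 * (√(∫ x in D, ‖grad (η k) x‖ ^ 2) * √B) +
    C1 * C2 * (√(∫ x in D, η k x ^ 2) * √B) + 4 * C3 * (√(∫ x in D, η k x ^ 2) * √B) +
    C4 * ∫ x in D, η k x ^ 2), ?_, fun k ψ L hψ hL hψ1 hψ0 => ?_⟩
  · have t1 := hs.1.sqrt
    have t2 := hs.2.sqrt
    have := (((((t2.mul_const √B).const_mul C1).add ((t1.mul_const √B).const_mul (C1 * C2))).add
      ((t1.mul_const √B).const_mul (4 * C3))).add (hs.1.const_mul C4)).const_mul 2
    simpa using this
  have hh : ContDiff ℝ ∞ fun x => φ x * η k x := hφ.mul (ha.smooth' k)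
  have hl := hlap D hD _ (a k) hh (ha.smooth k)
    (fun x hx => by rw [hφ0 x fun h => hx (ball_subset_closedBall h), zero_mul])
  have cT := c.continuous_w (c.continuous_T (ha.smooth k)) c.continuous_Om
  have cO := c.continuous_w c.continuous_Om c.continuous_Om
  have cφ := hφ.continuous
  have cη := hη k
  -- pointwise lower bound
  have e1 : ∫ x in D, -(2 * L) * (φ x * η k x * c.w (c.T (a k) x) (c.Om x) +
      φ x * η k x ^ 2 * c.w (c.Om x) (c.Om x)) ≤ c.N D ψ (a k) (a k) := by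
    refine int_mono hD (by fun_prop) (c.continuous_NI hψ (ha.smooth k) (ha.smooth k))
      fun x hx => ?_
    have q1 := c.w_pos hA (ha.pos k x hx) (ha.pos k x hx)
    have q2 := c.w_pos hA (ha.pos k x hx) (c.Om_pos x)
    have q3 := c.w_Om_Om x
    have q4 := ha.nonneg k x hx
    simp only [c.w_add_left, c.w_add_right, c.w_smul_left, c.w_smul_right,
      c.w_comm (c.Om x) (c.T (a k) x)] at q1 q2
    have q5 : ψ x ≤ L * φ x := by
      by_cases hx1 : x ∈ ball p R₁
      · rw [hφ1 x (ball_subset_closedBall hx1), mul_one]; exact (hψ1 x hx).2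
      · rw [hψ0 x hx1]; exact mul_nonneg hL (hφ01 x).1
    have q6 := (hψ1 x hx).1
    have q7 : 0 ≤ η k x * (c.w (c.T (a k) x) (c.Om x) + η k x * c.w (c.Om x) (c.Om x)) :=
      mul_nonneg q4 q2
    have q8 := mul_le_mul_of_nonneg_right q5 q7
    have q9 : -2 * (η k x * (c.w (c.T (a k) x) (c.Om x) + η k x * c.w (c.Om x) (c.Om x))) ≤
        c.w (c.T (a k) x) (c.T (a k) x) := by
      nlinarith [mul_nonneg (mul_nonneg q4 q4) q3.le]
    have q10 := mul_le_mul_of_nonneg_left q9 q6
    nlinarith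
  rw [integral_const_mul, int_add hD (by fun_prop) (by fun_prop), hl] at e1
  have e2 : ∫ x in D, φ x * η k x ^ 2 * c.w (c.Om x) (c.Om x) ≤ C4 * ∫ x in D, η k x ^ 2 := by
    rw [← integral_const_mul]
    refine int_mono hD (by fun_prop) (by fun_prop) fun x hx => ?_
    have q1 := (le_abs_self _).trans (b4 x hx)
    have q2 := c.w_Om_Om x
    have q3 := hφ01 x
    have q4 : φ x * c.w (c.Om x) (c.Om x) ≤ C4 := by nlinarith
    nlinarith [mul_le_mul_of_nonneg_right q4 (sq_nonneg (η k x))]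
  have e3 := cs_bd hD (h := fun x => φ x * η k x * (Y x ⬝ᵥ grad (a k) x))
    (hh.continuous.mul (hY.dotProduct (hg k))) cη (hg k).norm (C := 4 * C3) (by positivity)
    (fun x hx => by
      have q1 := abs_dot_le (Y x) (grad (a k) x)
      have q2 := mul_le_mul_of_nonneg_right (b3 x hx) (norm_nonneg (grad (a k) x))
      have q3 := hφ01 x
      have q4 := ha.nonneg k x hx
      have q5 : φ x * η k x ≤ η k x := by nlinarith
      rw [abs_mul, abs_of_nonneg (mul_nonneg q3.1 q4)]
      calc _ ≤ η k x * (4 * (C3 * ‖grad (a k) x‖)) :=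
            mul_le_mul q5 (by linarith) (abs_nonneg _) q4
        _ = _ := by ring) (hb k)
  have c1 : Continuous fun x => φ x • grad (η k) x := cφ.smul (hgη k)
  have c2 : Continuous fun x => η k x • grad φ x := cη.smul (continuous_grad hφ)
  have e4 : ∫ x in D, c.w (c.s x (grad (fun x => φ x * η k x) x) (grad (a k) x)) (c.Om x) =
      (∫ x in D, c.w (c.s x (φ x • grad (η k) x) (grad (a k) x)) (c.Om x)) +
      ∫ x in D, c.w (c.s x (η k x • grad φ x) (grad (a k) x)) (c.Om x) := by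
    rw [← int_add hD (c.continuous_w (c.continuous_s c1 (hg k)) c.continuous_Om)
      (c.continuous_w (c.continuous_s c2 (hg k)) c.continuous_Om)]
    refine int_congr hD fun x _ => ?_
    rw [grad_mul hφ (ha.smooth' k), c.s_add_left, c.w_add_left]
  have e5 := cs_bd hD (c.continuous_w (c.continuous_s c1 (hg k)) c.continuous_Om)
    (hgη k).norm (hg k).norm hC1 (fun x hx => (b1 x hx _ _).trans (by
      have q3 := hφ01 x
      refine mul_le_mul_of_nonneg_left (mul_le_mul_of_nonneg_right ?_ (norm_nonneg _)) hC1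
      rw [norm_smul, Real.norm_eq_abs, abs_of_nonneg q3.1]
      nlinarith [norm_nonneg (grad (η k) x)])) (hb k)
  have e6 := cs_bd hD
    (c.continuous_w (c.continuous_s c2 (hg k)) c.continuous_Om)
    cη (hg k).norm (C := C1 * C2) (by positivity) (fun x hx => (b1 x hx _ _).trans (by
      have q4 := ha.nonneg k x hx
      rw [norm_smul, Real.norm_eq_abs, abs_of_nonneg q4]
      have q5 := mul_le_mul_of_nonneg_left (b2 x hx) q4
      have q6 := mul_le_mul_of_nonneg_left
        (mul_le_mul_of_nonneg_right q5 (norm_nonneg (grad (a k) x))) hC1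
      linarith)) (hb k)
  rw [e4] at e1
  refine le_trans ?_ e1
  have f3 := (abs_le.1 e3).2
  have f5 := (abs_le.1 e5).1
  have f6 := (abs_le.1 e6).1
  nlinarith

theorem ctu (hA : SLinA) (_hB : SLinB) (hI : SIntA) (hJ : SIntB) : SCTU := by
  intro c p R R₁ K ρ f ηf a ηa d ε hε
  have hD : IsCompact (closedBall p R) := isCompact_closedBall p R
  obtain ⟨s, hs, hlow⟩ := N_lower hA hJ c p d.pos d.lt d.appa d.caua d.small
  obtain ⟨B, hB, hb⟩ := exists_bound hD d.smooth.continuous
  have hF : ∀ i, ContDiff ℝ ∞ fun x => f i x - ρ x := fun i => (d.appf.smooth i).sub d.smooth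
  have hF0 : ∀ i x, x ∉ ball p R₁ → f i x - ρ x = 0 := fun i x hx => by
    rw [d.outf i x hx, sub_self]
  have hF1 : ∀ i, ∀ x ∈ closedBall p R, 0 ≤ f i x - ρ x ∧ f i x - ρ x ≤ |K| + B := by
    intro i x hx
    have q1 := (abs_le.1 (d.appf.bdd i x hx)).2
    have q2 := (abs_le.1 (hb x hx)).1
    exact ⟨sub_nonneg.2 (d.gef i x), by linarith [le_abs_self K]⟩
  have hL : 0 ≤ |K| + B := by positivity
  choose l hl using fun i => cauchySeq_tendsto_of_complete
    (N_cauchy hI c hD (hF i) (fun x hx => hF0 i x fun h =>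
      hx (ball_subset_closedBall (ball_subset_ball d.lt.le h))) d.appa.smooth d.caua)
  have hs' : Tendsto (fun k => -((|K| + B) * s k)) atTop (𝓝 0) := by
    simpa using (hs.const_mul (|K| + B)).neg
  have hl0 : ∀ i, 0 ≤ l i := fun i => le_of_tendsto_of_tendsto' hs' (hl i) fun k =>
    hlow k _ _ (hF i).continuous hL (hF1 i) (hF0 i)
  have hbdd : BddBelow (range l) := ⟨0, by rintro _ ⟨i, rfl⟩; exact hl0 i⟩
  obtain ⟨i, hi⟩ := exists_lt_of_ciInf_lt (f := l) (a := (⨅ i, l i) + ε / 4) (by linarith)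
  have e1 := (hl i).eventually (gt_mem_nhds (show l i < l i + ε / 4 by linarith))
  have e2 := hs'.eventually (lt_mem_nhds (show -(ε / 4) < 0 by linarith))
  filter_upwards [e1, e2, eventually_ge_atTop i] with j j1 j2 j3
  have e3 := (hl j).eventually (lt_mem_nhds (show l j - ε / 4 < l j by linarith))
  filter_upwards [e3] with k k1
  have q1 := ciInf_le hbdd j
  have q2 := hlow j (fun x => (f i x - ρ x) - (f j x - ρ x)) _
    ((hF i).continuous.sub (hF j).continuous) hL (fun x hx => by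
      have := anti_of_succ d.appf.anti hx j3
      have := hF1 i x hx
      have := hF1 j x hx
      constructor <;> linarith) (fun x hx => by rw [hF0 i x hx, hF0 j x hx, sub_self])
  rw [c.N_sub hD (hF i).continuous (hF j).continuous (d.appa.smooth j) (d.appa.smooth j)] at q2
  linarith

end Pool.Agent.MP_13e7a1_an.H42
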